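import Pool.Agent.Y264.Man5

/-! The domination principle for the Monge-Ampere operator on almost complex surfaces. -/

namespace Pool.Agent.Results.MP_13e7a1_an.Domination
open MeasureTheory Set Filter Topology Pool.Agent.Y264
open scoped ContDiff Manifold

/-- The perturbed difference satisfies a global bound. -/
theorem perturbed {E : Type*} [NormedAddCommGroup E] [InnerProductSpace ℝ E]
    [FiniteDimensional ℝ E] [MeasurableSpace E] [BorelSpace E] (b : OrthonormalBasis (Fin 4) ℝ E)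
    {M : Type*} [TopologicalSpace M] [ChartedSpace E M]
    [IsManifold 𝓘(ℝ, E) ∞ M] [MeasurableSpace M] [BorelSpace M] (𝒥 : ACS.AlmostComplex E M) {Ω : Set M}
    {ρ : M → ℝ} (hρ : ACS.SmoothStrictlyPsh 𝒥 Ω ρ) {u v : M → ℝ}
    (hu : ACS.IsPsh 𝒥 Ω u) (hv : ACS.IsPsh 𝒥 Ω v) {C B : ℝ} (hub : ∀ x ∈ Ω, |u x| ≤ C)
    (hvb : ∀ x ∈ Ω, |v x| ≤ C) (hB : ∀ x ∈ Ω, |ρ x| ≤ B) {μ ν : Measure M}
    (hμ : ACS.IsMongeAmpere 𝒥 b Ω u μ) (hν : ACS.IsMongeAmpere 𝒥 b Ω v ν)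
    (hle : ∀ s, MeasurableSet s → s ⊆ Ω → ν s ≤ μ s) {K : Set M} (hK : IsCompact K)
    (hKΩ : K ⊆ Ω) (h : ∀ x ∈ Ω \ K, u x ≤ v x) {ε : ℝ} (hε : 0 < ε)
    (hε1 : 2 * ε * (2 * (2 * C + 1) + 1) ≤ 1) :
    ∀ x ∈ Ω, u x - v x ≤ 2 * (ε * (B + (4 * C + 1) ^ 2)) := by
  intro x0 hx0
  have hC : 0 ≤ C := (abs_nonneg _).trans (hub x0 hx0)
  set W : M → ℝ := fun x => u x + ε * (ρ x + (u x + v x + 2 * C + 1) * (u x + v x + 2 * C + 1)) - v x
    with hW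
  set H : ℝ := B + (4 * C + 1) ^ 2 with hH
  have hh : ∀ x ∈ Ω, |ρ x + (u x + v x + 2 * C + 1) * (u x + v x + 2 * C + 1)| ≤ H := by
    intro x hx
    have h1 := abs_le.mp (hub x hx)
    have h2 := abs_le.mp (hvb x hx)
    have h3 := abs_le.mp (hB x hx)
    have h4 : 0 ≤ (u x + v x + 2 * C + 1) * (u x + v x + 2 * C + 1) := mul_self_nonneg _
    have h5 : (u x + v x + 2 * C + 1) * (u x + v x + 2 * C + 1) ≤ (4 * C + 1) ^ 2 := by
      rw [sq]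
      apply mul_self_le_mul_self <;> linarith
    have h6 : 0 ≤ (4 * C + 1) ^ 2 := sq_nonneg _
    rw [abs_le]
    constructor <;> linarith
  have hWle : ∀ x ∈ Ω, W x ≤ 2 * C + ε * H := by
    intro x hx
    have h1 := abs_le.mp (hub x hx)
    have h2 := abs_le.mp (hvb x hx)
    have h3 := mul_le_mul_of_nonneg_left (abs_le.mp (hh x hx)).2 hε.le
    simp only [hW]
    linarith
  have hbdd : BddAbove (W '' Ω) := ⟨2 * C + ε * H, by rintro _ ⟨x, hx, rfl⟩; exact hWle x hx⟩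
  set m : ℝ := sSup (W '' Ω) with hm
  have hWm : ∀ x ∈ Ω, W x ≤ m := fun x hx => le_csSup hbdd ⟨x, hx, rfl⟩
  obtain ⟨δ, hδ, hKδ⟩ : ∃ δ > 0, ∀ x ∈ K, W x ≤ m - δ := by
    apply hK.induction_on (p := fun s => ∃ δ > 0, ∀ x ∈ s, W x ≤ m - δ)
    · exact ⟨1, one_pos, fun x hx => absurd hx (notMem_empty x)⟩
    · rintro s t hst ⟨δ, hδ, ht⟩
      exact ⟨δ, hδ, fun x hx => ht x (hst hx)⟩
    · rintro s t ⟨δ1, hδ1, h1⟩ ⟨δ2, hδ2, h2⟩
      refine ⟨min δ1 δ2, lt_min hδ1 hδ2, fun x hx => ?_⟩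
      rcases hx with hx | hx
      · exact (h1 x hx).trans (by linarith [min_le_left δ1 δ2])
      · exact (h2 x hx).trans (by linarith [min_le_right δ1 δ2])
    · intro p hp
      obtain ⟨N, hNo, hpN, δ, hδ, hN⟩ := chart_thm b 𝒥 hρ hu hv hub hvb hμ hν hle hε hε1 hWm (hKΩ hp)
      exact ⟨N, mem_nhdsWithin_of_mem_nhds (hNo.mem_nhds hpN), δ, hδ, hN⟩
  have hall : ∀ x ∈ Ω, W x ≤ max (ε * H) (m - δ) := by
    intro x hx
    by_cases hxK : x ∈ K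
    · exact (hKδ x hxK).trans (le_max_right _ _)
    · refine le_trans ?_ (le_max_left _ _)
      have h1 := h x ⟨hx, hxK⟩
      have h3 := mul_le_mul_of_nonneg_left (abs_le.mp (hh x hx)).2 hε.le
      simp only [hW]
      linarith
  have hmle : m ≤ max (ε * H) (m - δ) := by
    apply csSup_le (Set.Nonempty.image _ ⟨x0, hx0⟩)
    rintro _ ⟨x, hx, rfl⟩
    exact hall x hx
  have hmH : m ≤ ε * H := by
    rcases le_max_iff.mp hmle with h1 | h1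
    · exact h1
    · linarith
  have h1 := (hWm x0 hx0).trans hmH
  have h2 := mul_le_mul_of_nonneg_left (abs_le.mp (hh x0 hx0)).1 hε.le
  simp only [hW] at h1
  linarith

/-- The domination principle. -/
theorem result {E : Type*} [NormedAddCommGroup E] [InnerProductSpace ℝ E]
    [FiniteDimensional ℝ E] [MeasurableSpace E] [BorelSpace E] (b : OrthonormalBasis (Fin 4) ℝ E)
    {M : Type*} [TopologicalSpace M] [ChartedSpace E M] [IsManifold 𝓘(ℝ, E) ∞ M]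
    [MeasurableSpace M] [BorelSpace M] (𝒥 : ACS.AlmostComplex E M) {Ω : Set M}
    (hΩ : ACS.StrictlyPseudoconvex 𝒥 Ω) {u v : M → ℝ}
    (hu : ACS.IsPsh 𝒥 Ω u) (hv : ACS.IsPsh 𝒥 Ω v)
    (hub : ∃ C, ∀ x ∈ Ω, |u x| ≤ C) (hvb : ∃ C, ∀ x ∈ Ω, |v x| ≤ C) {μ ν : Measure M}
    (hμ : ACS.IsMongeAmpere 𝒥 b Ω u μ) (hν : ACS.IsMongeAmpere 𝒥 b Ω v ν)
    (hle : ∀ s, MeasurableSet s → s ⊆ Ω → ν s ≤ μ s) {K : Set M} (hK : IsCompact K)
    (hKΩ : K ⊆ Ω) (h : ∀ x ∈ Ω \ K, u x ≤ v x) : ∀ x ∈ Ω, u x ≤ v x := by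
  obtain ⟨hcl, V, ρ, hVo, hV, hρV, hΩρ, -⟩ := hΩ
  obtain ⟨C1, hC1⟩ := hub
  obtain ⟨C2, hC2⟩ := hvb
  have hΩV : Ω ⊆ V := subset_closure.trans hV
  have hρ : ACS.SmoothStrictlyPsh 𝒥 Ω ρ :=
    ⟨hρV.smooth.mono hΩV, fun p y hy hyΩ => hρV.levi_pos p y hy (hΩV hyΩ)⟩
  obtain ⟨B, hB⟩ := hcl.exists_bound_of_continuousOn (hρV.smooth.continuousOn.mono hV)
  intro x hx
  set C := max C1 C2 with hC
  have hub : ∀ x ∈ Ω, |u x| ≤ C := fun x hx => (hC1 x hx).trans (le_max_left _ _)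
  have hvb : ∀ x ∈ Ω, |v x| ≤ C := fun x hx => (hC2 x hx).trans (le_max_right _ _)
  have hB' : ∀ x ∈ Ω, |ρ x| ≤ B := fun x hx => hB x (subset_closure hx)
  have hC0 : 0 ≤ C := (abs_nonneg _).trans (hub x hx)
  have hB0 : 0 ≤ B := (abs_nonneg _).trans (hB' x hx)
  by_contra hcon
  push Not at hcon
  set d := u x - v x with hd
  have hd0 : 0 < d := by linarith
  set H := B + (4 * C + 1) ^ 2 with hH
  have hH0 : 0 < H := by positivity
  set ε := min (1 / (2 * (2 * (2 * C + 1) + 1))) (d / (4 * H)) with hε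
  have hε0 : 0 < ε := by positivity
  have h1 : 2 * ε * (2 * (2 * C + 1) + 1) ≤ 1 := by
    have h2 : ε ≤ 1 / (2 * (2 * (2 * C + 1) + 1)) := min_le_left _ _
    rw [le_div_iff₀ (by positivity)] at h2
    linarith
  have h2 := perturbed b 𝒥 hρ hu hv hub hvb hB' hμ hν hle hK hKΩ h hε0 h1 x hx
  have h3 : ε * H ≤ d / 4 := by
    have h4 : ε ≤ d / (4 * H) := min_le_right _ _
    rw [le_div_iff₀ (by positivity)] at h4
    linarith
  linarith

end Pool.Agent.Results.MP_13e7a1_an.Domination
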